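import Pool.Agent.Run7.h427.CD.Main

/-!
# Galois representations attached to an automorphic representation: descent from fields of coprime
# degrees

Let `F` be a number field and let `T v` be monic polynomials of degree `n` over a field `k` (an
algebraic closure of `ℚ_ℓ`, or any Hausdorff topological field of characteristic zero), for example the
Hecke polynomials of an algebraic automorphic representation `π` of `GL_n` over `F`.  Open subgroups
`H` of the absolute Galois group of `F` are the absolute Galois groups of the finite extensions of
`F`.  `Attached T H ρ` says that `ρ` is a continuous semisimple representation of the absolute Galois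
group of the extension field which corresponds to the base change of `π` at almost all primes of
degree one.

1. **Coprime degrees.**  Let `F i` be finite extensions of `F` contained in a finite Galois extension
`M` (any number of them, for example two), such that for every prime number `p` the degree of one of
them is prime to `p`.  If there are attached representations over all the `F i`, and one of them is
absolutely irreducible over `M`, then one representation of the absolute Galois group of `F` extends
all of them, and it is the only one attached to `T` over all the `F i`.  It is attached to `T` over `F`
if every element of the Galois group of `M` over `F` is conjugate to an element which fixes one of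
the `F i`.
2. **General families.**  The fields `F i` need not be contained in a finite extension.  It is
sufficient that for every finite Galois extension `M` of `F` the degrees of the fields `F i ∩ M` over
`F` have greatest common divisor one, if one of the attached representations is absolutely irreducible
over all finite extensions.  (For the families such that every `M` is linearly disjoint from one of the
`F i` see the result `TwoFields`.)
3. **Sylow subgroups and cyclic subgroups.**  Let `M` be a finite Galois extension of `F` with Galois
group `Δ`.  If there are attached representations, absolutely irreducible over `M`, over the fixed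
fields of the subgroups of `Δ` of prime power order and of the cyclic subgroups, then there is
one over `F`, which extends all representations attached to `T` over intermediate fields; and it is
unramified at `v` with the polynomial `P` if one of these is so at a place of degree one and unramified
over `v`.

No condition is imposed on the structure of `Δ`.  Irreducibility over `M` cannot be omitted: for `Δ`
the symmetric group of degree three the virtual character `std + sgn - 1` has degree two, it is the
character of a representation on the subgroups of order two and three (on which it is `2 sgn` and
`std`), but there is no representation of `Δ` with these restrictions.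

The proof does not use Brauer's induction theorem.  Let `σ` be the restriction to the Galois group of
`M`.  The pairs `(γ, A)`, `A` a matrix which intertwines `σ` and its conjugate by `γ`, form a central
extension of the Galois group of `F` by the scalars.  The representations over the `F i` define
homomorphisms of subgroups of coprime indices to the scalars which are compatible with conjugation (by
the theorem of Chebotarev), and a combination of their transfers extends them all.  In part 2 the
given representations are first extended to the Galois groups of the fields `F i ∩ M`, for a
suitable `M`; these extensions are compared at elements of prime power order with Sylow's theorem.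
-/

set_option autoImplicit false

namespace Pool.Agent.Results.MP_ef641d_nt.CoprimeDegrees

open Run7.h427.DS Run7.h427.PL Run7.h427.CD Pool.Agent.W401.Cheb NumberField IsDedekindDomain
  Polynomial

/-- (1) coprime degrees -/
def CoprimeDescent : Prop :=
  ∀ (F : Type) [Field F] [NumberField F] (k : Type) [Field k] [CharZero k] [TopologicalSpace k]
    [IsTopologicalRing k] [T2Space k] (n : ℕ) (T : HeightOneSpectrum (𝓞 F) → k[X])
    (N : Subgroup (GK F)), N.Normal → IsOpen (N : Set (GK F)) →
    ∀ (ι : Type) (H : ι → Subgroup (GK F)), (∀ i, N ≤ H i) →
    (∀ p : ℕ, p.Prime → ∃ i, ¬ p ∣ (H i).index) →
    ∀ ρ : ∀ i, H i →* GL (Fin n) k, (∀ i, Attached T (H i) (ρ i)) →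
    (∃ i, IrrOn (H i) (ρ i) N) → Descends T H ρ

/-- (2) general families -/
def GeneralDescent : Prop :=
  ∀ (F : Type) [Field F] [NumberField F] (k : Type) [Field k] [CharZero k] [TopologicalSpace k]
    [IsTopologicalRing k] [T2Space k] (n : ℕ) (T : HeightOneSpectrum (𝓞 F) → k[X])
    (ι : Type) (H : ι → Subgroup (GK F)), CoprimeGeneral H →
    ∀ ρ : ∀ i, H i →* GL (Fin n) k, (∀ i, Attached T (H i) (ρ i)) →
    (∃ i, ∀ M : Subgroup (GK F), IsOpen (M : Set (GK F)) → IrrOn (H i) (ρ i) M) →
    Descends T H ρ

/-- the restriction of `R` to every intermediate field over which there is an attached representation
`ρ` is isomorphic to `ρ`, and `R` is unramified with the polynomial `P` at `v` if `ρ` is so at a place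
of degree one and unramified over `v` -/
def Dominates {F : Type} [Field F] [NumberField F] {k : Type} [Field k] [TopologicalSpace k]
    {n : ℕ} (T : HeightOneSpectrum (𝓞 F) → k[X]) (N : Subgroup (GK F))
    (R : GK F →* GL (Fin n) k) : Prop :=
  ∀ D : Subgroup (GK F), N ≤ D → ∀ ρ : D →* GL (Fin n) k, Attached T D ρ → Extends D ρ R ∧
    ∀ (v : HeightOneSpectrum (𝓞 F)) (Q : Ideal (𝓞 (AlgebraicClosure F))), Q.IsMaximal →
      Q.comap (algebraMap (𝓞 F) (𝓞 (AlgebraicClosure F))) = v.asIdeal → ∀ P : k[X],
      GoodAt v Q D ρ P → Unr v R P

/-- (3) Sylow subgroups and cyclic subgroups -/
def SylowCyclicDescent : Prop :=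
  ∀ (F : Type) [Field F] [NumberField F] (k : Type) [Field k] [CharZero k] [TopologicalSpace k]
    [IsTopologicalRing k] [T2Space k] (n : ℕ) (T : HeightOneSpectrum (𝓞 F) → k[X])
    (N : Subgroup (GK F)), N.Normal → IsOpen (N : Set (GK F)) →
    (∀ D : Subgroup (GK F), Elem N D → ∃ ρ : D →* GL (Fin n) k, Attached T D ρ ∧ IrrOn D ρ N) →
    ∃ R : GK F →* GL (Fin n) k, Attached T ⊤ (R.comp (⊤ : Subgroup (GK F)).subtype) ∧
      Dominates T N R

/-- **Descent of attached Galois representations from fields of coprime degrees.** -/
theorem result : CoprimeDescent ∧ GeneralDescent ∧ SylowCyclicDescent := by
  refine ⟨?_, ?_, ?_⟩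
  · intro F _ _ k _ _ _ _ _ n T N hNn hN ι H hNH hm ρ h ho
    obtain ⟨o, ho⟩ := ho
    exact coprime_degrees hN hNH h hm o ho
  · intro F _ _ k _ _ _ _ _ n T ι H hgen ρ h ho
    obtain ⟨o, ho⟩ := ho
    exact coprime_general hgen h o ho
  · intro F _ _ k _ _ _ _ _ n T N hNn hN h
    obtain ⟨R, hR, hext⟩ := sylow_cyclic hN h
    refine ⟨R, hR, fun D hND ρ hρ => ⟨hext D hND ρ hρ, ?_⟩⟩
    intro v Q hQ hQv P hg
    exact (hext D hND ρ hρ).local v Q hQv hg.1 P hg.2

end Pool.Agent.Results.MP_ef641d_nt.CoprimeDegrees
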