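import Pool.Agent.Run7.h427.DS.Irr

/-!
# A Deligne–Serre criterion for `GL_n`

Let `T v` be the Hecke polynomials, with coefficients in the ring of integers of a number field `E`,
of an algebraic automorphic representation of `GL_n` over a number field `F` at the primes `v` outside a
finite set `S`.  Suppose that the conjugates of the Hecke eigenvalues `a v` (the sums of the roots of the
`T v`) have bounded mean square (for cuspidal unitary representations this is the theorem of
Rankin–Selberg and Jacquet–Shalika: the mean square is one), or only that the `a v` lie in a finite set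
up to primes of lower density `η < 1 / n ^ 2`; this is the case of Q1 in which the infinity type is
scalar.  Then

1. if semisimple representations modulo `𝔩` with the reductions of the `T v` as characteristic
polynomials of Frobenius exist for infinitely many primes `𝔩` of `E`, then there is a representation
with finite image and with the characteristic polynomials `T v` at all `v ∉ S` over every algebraically
closed field of characteristic zero, for instance over `ℂ` and over the algebraic closures of all
`ℚ_ℓ`, for all embeddings of `E`;
2. if there is one continuous semisimple representation over a Hausdorff topological field of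
characteristic zero (for instance an algebraic closure of one `ℚ_ℓ`, for one embedding of `E`) which has
the characteristic polynomials `T v` at almost all `v`, then its image is finite and the same conclusion
holds;
3. bounded mean square implies the condition on the finite set;
4. the complex representation is irreducible if the mean square is smaller than two.

For `n = 2` the first statement is due to Deligne and Serre, who use the classification of the subgroups
of `GL_2` of a finite field.  Here the order of the image is bounded for all `n` by an elementary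
argument: in characteristic `0` or larger than `n` the trace form on the linear span of the image of a
semisimple representation is nondegenerate, so there are `n ^ 2` elements `g_i` of the group such that
`ρ x` is determined by the traces of `ρ (g_i x)`; by Chebotarev's theorem these are all in a given
finite set `Y` for a set of `x` of measure at least `1 - n ^ 2 η`, so the image has at most
`|Y| ^ (n ^ 2) / (1 - n ^ 2 η)` elements.

Frobenius elements are arithmetic (`σ x ≡ x ^ N(v)`); for geometric ones pass to the contragredient.
-/

set_option autoImplicit false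

namespace Pool.Agent.Results.MP_ef641d_nt.DeligneSerre

open Run7.h427.DS Pool.Agent.W401.Cheb NumberField IsDedekindDomain Filter
open scoped Matrix

/-- `R` has an open kernel and matches the system `Θ` at all primes outside its exceptional set -/
def Realises {F E : Type} [Field F] [NumberField F] [Field E] [NumberField E] {n : ℕ}
    (Θ : HeckeSystem F E n) {K : Type} [Field K] (φ : 𝓞 E →+* K) (R : GK F →* GL (Fin n) K) : Prop :=
  IsOpen (R.ker : Set (GK F)) ∧ ∀ v ∉ Θ.S, Θ.Matches φ R v

/-- (1) from representations modulo infinitely many primes -/
def ModularCriterion : Prop :=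
  ∀ (F E : Type) [Field F] [NumberField F] [Field E] [NumberField E] (n : ℕ)
    (Θ : HeckeSystem F E n), 0 < n → Θ.FewTraces → Θ.modPrimes.Infinite →
    ∀ (K : Type) [Field K] [CharZero K] [IsAlgClosed K] (φ : 𝓞 E →+* K),
      ∃ R : GK F →* GL (Fin n) K, Realises Θ φ R

/-- (2) from one continuous representation in characteristic zero -/
def AdicCriterion : Prop :=
  ∀ (F E : Type) [Field F] [NumberField F] [Field E] [NumberField E] (n : ℕ)
    (Θ : HeckeSystem F E n), 0 < n → Θ.FewTraces →
    ∀ (k : Type) [Field k] [CharZero k] [TopologicalSpace k] [IsTopologicalRing k] [T2Space k]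
      (φ : 𝓞 E →+* k) (ρ : GK F →* GL (Fin n) k),
      Continuous (fun σ => (ρ σ : Matrix (Fin n) (Fin n) k)) → Semis ρ →
      {v | ¬ Θ.Matches φ ρ v}.Finite →
      Finite ρ.range ∧
      ∀ (K : Type) [Field K] [CharZero K] [IsAlgClosed K] (φ' : 𝓞 E →+* K),
        ∃ R : GK F →* GL (Fin n) K, IsOpen (R.ker : Set (GK F)) ∧
          ∀ v, Θ.Matches φ ρ v → Θ.Matches φ' R v

/-- (3) bounded mean square implies few traces -/
def MeanSquareCriterion : Prop :=
  ∀ (F E : Type) [Field F] [NumberField F] [Field E] [NumberField E] (n : ℕ)
    (Θ : HeckeSystem F E n), Θ.MeanSquare → Θ.FewTraces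

/-- (4) irreducibility: if for arbitrarily large `N` the sum of `|φ (a v)| ^ 2` over the `v ∉ S` of
norm at most `N` is at most `c π (N)`, `c < 2`, then a realisation over `ℂ` is irreducible -/
def IrreducibleCriterion : Prop :=
  ∀ (F E : Type) [Field F] [NumberField F] [Field E] [NumberField E] (n : ℕ)
    (Θ : HeckeSystem F E n), 0 < n →
    ∀ (φ : 𝓞 E →+* ℂ) (R : GK F →* GL (Fin n) ℂ), Realises Θ φ R → ∀ c : ℝ, c < 2 →
      (∃ᶠ N : ℕ in atTop,
        ∑ᶠ v ∈ {v : HeightOneSpectrum (𝓞 F) | Ideal.absNorm v.asIdeal ≤ N ∧ v ∉ Θ.S},
          ‖φ (Θ.a v)‖ ^ 2 ≤ c * (Nat.primeCounting N : ℝ)) →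
      ∀ W : Submodule ℂ (Fin n → ℂ),
        (∀ g, ∀ w ∈ W, (R g : Matrix (Fin n) (Fin n) ℂ) *ᵥ w ∈ W) → W = ⊥ ∨ W = ⊤

/-- **A Deligne–Serre criterion for `GL_n`.** -/
theorem result :
    ModularCriterion ∧ AdicCriterion ∧ MeanSquareCriterion ∧ IrreducibleCriterion := by
  refine ⟨?_, ?_, ?_, ?_⟩
  · intro F E _ _ _ _ n Θ hn hf hinf K _ _ _ φ
    exact of_modPrimes Θ hn hf hinf φ
  · intro F E _ _ _ _ n Θ hn hf k _ _ _ _ _ φ ρ hc hs hfin
    obtain ⟨h1, h2⟩ := finite_of_adic Θ hn hf φ ρ hc hs hfin
    exact ⟨h1, fun K _ _ _ φ' => matches_transfer Θ φ ρ h1 h2 φ'⟩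
  · intro F E _ _ _ _ n Θ h
    exact fewTraces_of_meanSquare Θ h
  · intro F E _ _ _ _ n Θ hn φ R hR c hc hN W hW
    exact irreducible Θ hn φ R hR.1 hR.2 c hc hN W hW

end Pool.Agent.Results.MP_ef641d_nt.DeligneSerre
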