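import Pool.Agent.Run7.h427.DT.Final

/-!
# Galois representations attached to automorphic representations: separation of twisted products and
# of automorphic inductions by characters of finite order

Galois representations are often constructed for a functorial image of an automorphic representation
`π` only: for an isobaric sum of `π` with other representations, or for an automorphic induction of
`π`.  The representation of `π` itself is then a direct factor, which must be found among the factors
of the large representation.  Harris, Lan, Taylor and Thorne twist by the powers of one character of
infinite order.  Here it is proved that characters of finite order are sufficient: one twist for each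
of infinitely many prime numbers `m`, by characters of order `m`, which need not be related for
different `m`.

Let `F` be a number field and let `k` be an algebraically closed Hausdorff topological field of
characteristic zero (such as an algebraic closure of `ℚ_ℓ`).

1. **Products.**  Let `T i v`, `i ∈ ι`, be multisets of `n i` elements of `k` for the primes `v` of `F`
(such as the Satake parameters of cuspidal automorphic representations `π i` of `GL_(n i)` over `F`).
Let `R₀` be a continuous semisimple representation of the absolute Galois group of `F` of dimension
`N`, such that for `v` outside a set of density zero the Frobenius elements at `v` have the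
eigenvalues `T i v`, `i ∈ ι` (the representation attached to the isobaric sum of the `π i`).  For
all `m` in an infinite set `M` of prime numbers let `χ m i`, `i ∈ ι`, be different characters of the
Galois group with open kernels whose `m`-th powers are trivial, and let `R m` be such a representation
with the Frobenius eigenvalues `χ m i (Frob v) * a`, `a ∈ T i v` (the representation attached to the
isobaric sum of the `π i ⊗ χ m i`).  Then for every `i` there is a continuous semisimple
representation `X i` of dimension `n i` with the Frobenius eigenvalues `T i v` for `v` outside a set
of density zero.
2. **Automorphic induction.**  Let `K` be a finite Galois extension of `F`, and let `T Q` be multisets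
of `n` elements for the primes `Q` of `K` (the Satake parameters of an automorphic representation `Π`
of `GL_n` over `K`).  Let `R₀` be a continuous semisimple representation of the absolute Galois group of
`F` with the Frobenius eigenvalues of the automorphic induction of `Π`, and for all `m` in an infinite
set of prime numbers let `χ m` be a character of the absolute Galois group of `K` with open kernel
whose `m`-th power is trivial and which is different from its conjugates, and let `R m` be a
representation of the absolute Galois group of `F` with the Frobenius eigenvalues of the automorphic
induction of `Π ⊗ χ m`.  Only the Frobenius elements over `K` are considered, at primes `v` of `F`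
outside a set of density zero.  Then there is a continuous semisimple representation `X` of the
absolute Galois group of `K` of dimension `n` with the Frobenius eigenvalues `T Q` at the primes `Q`
above `v`, for all `v` outside a set of density zero (this includes the primes of `K` of degree one
over `F` outside a set of density zero, which determine `X`).

In both cases the kernel of `R₀` is contained in the kernels of the new representations (so that these
are unramified where `R₀` is unramified), and they have the right eigenvalues at a prime `v` if more
than `N ^ 2` of the `R m` have the right eigenvalues at `v` and the values of the characters (of the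
conjugates of the character) at the Frobenius elements at `v` are different for these `m`.

The proof: `R₀` and `R m` are isomorphic on the common kernel `L` of the characters, and for almost
all `m` the commutant of `R₀` does not become larger on `L`.  So `R m` is isomorphic to `g ↦ R₀ g * c g`
for a representation `c` of a group of exponent `m` in the commutant of `R₀`, and the part of `R₀`
on which `c` is equal to the character `χ m i` has the right eigenvalues at all Frobenius elements of
which no two eigenvalues differ by an `m`-th root of unity, up to a set of density at most `C / m`: in
a group of exponent `m` which acts on a space of dimension `N` at most `N / m` of the elements have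
fixed vectors which are not fixed by the group.  There are only finitely many isomorphism classes of
factors of `R₀`, and one of them is obtained for infinitely many `m`.
-/

set_option autoImplicit false

namespace Pool.Agent.Results.MP_ef641d_nt.TwistedProducts

open Run7.h427.DT Pool.Agent.W401.Cheb NumberField IsDedekindDomain
open scoped Pointwise

/-- the local statement for products: `X i` has the eigenvalues `T i v` at `v` if more than `N ^ 2` of
the twisted representations have the right eigenvalues at `v` and the values of the characters at
the Frobenius elements at `v` are different -/
def LocalProd {F : Type} [Field F] [NumberField F] {k : Type} [Field k] {ι : Type} [Fintype ι]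
    {n : ι → ℕ} (T : ι → HeightOneSpectrum (𝓞 F) → Multiset k) (M : Set ℕ)
    (χ : ℕ → ι → GK F →* kˣ) {N : ℕ} (R : ℕ → GK F →* GL (Fin N) k)
    (X : ∀ i, GK F →* GL (Fin (n i)) k) : Prop :=
  ∀ (v : HeightOneSpectrum (𝓞 F)) (M' : Finset ℕ), (M' : Set ℕ) ⊆ M → N * N < M'.card →
    (∀ m ∈ M', EigProd T (χ m) (R m) v ∧
      ∀ σ, IsFrob v σ → Function.Injective fun i => χ m i σ) → ∀ i, EigOne (T i) (X i) v

/-- (1) separation of twisted products -/
def SeparationOfProducts : Prop :=
  ∀ (F : Type) [Field F] [NumberField F] (k : Type) [Field k] [IsAlgClosed k] [CharZero k]
    [TopologicalSpace k] [IsTopologicalRing k] [T2Space k] (ι : Type) [Fintype ι] (n : ι → ℕ)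
    (T : ι → HeightOneSpectrum (𝓞 F) → Multiset k), (∀ i v, (T i v).card = n i) →
    ∀ (N : ℕ) (R₀ : GK F →* GL (Fin N) k), Galois (EigProd T (fun _ => 1) R₀) R₀ →
    ∀ M : Set ℕ, M.Infinite → ∀ (χ : ℕ → ι → GK F →* kˣ) (R : ℕ → GK F →* GL (Fin N) k),
    (∀ m ∈ M, TwProd T m (χ m) (R m)) →
    ∃ X : ∀ i, GK F →* GL (Fin (n i)) k, (∀ i, Galois (EigOne (T i) (X i)) (X i)) ∧
      (∀ i σ, R₀ σ = 1 → X i σ = 1) ∧ LocalProd T M χ R X

/-- the local statement for inductions: `X` has the eigenvalues `T Q` at the primes `Q` above `v` if
more than `N ^ 2` of the twisted representations have the right eigenvalues at `v` and the values of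
the conjugates of the character at the Frobenius elements at `v` are different -/
def LocalInd {F : Type} [Field F] [NumberField F] {k : Type} [Field k] (K : Subgroup (GK F))
    [K.Normal] {ι : Type} [Fintype ι] (g : ι → GK F) {n : ℕ}
    (T : Ideal (𝓞 (AlgebraicClosure F)) → Multiset k) (M : Set ℕ) (χ : ℕ → K →* kˣ) {N : ℕ}
    (R : ℕ → GK F →* GL (Fin N) k) (X : K →* GL (Fin n) k) : Prop :=
  ∀ (v : HeightOneSpectrum (𝓞 F)) (M' : Finset ℕ), (M' : Set ℕ) ⊆ M → N * N < M'.card →
    (∀ m ∈ M', EigInd K g T (χ m) (R m) v ∧ ∀ σ : K, IsFrob v (σ : GK F) →
      ∀ γ : GK F, γ ∉ K → cch K (χ m) γ σ ≠ χ m σ) → EigSub K T X v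

/-- (2) separation of automorphic inductions: `K` is an open normal subgroup, `g` are representatives
of the cosets of `K`, and `T` is a function of the maximal ideals `Q` modulo the action of `K` -/
def SeparationOfInductions : Prop :=
  ∀ (F : Type) [Field F] [NumberField F] (k : Type) [Field k] [IsAlgClosed k] [CharZero k]
    [TopologicalSpace k] [IsTopologicalRing k] [T2Space k] (K : Subgroup (GK F)) [K.Normal],
    IsOpen (K : Set (GK F)) → ∀ (ι : Type) [Fintype ι] (g : ι → GK F),
    (Function.Bijective fun i => (g i : GK F ⧸ K)) →
    ∀ (n : ℕ) (T : Ideal (𝓞 (AlgebraicClosure F)) → Multiset k), (∀ Q, (T Q).card = n) →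
    (∀ Q, ∀ κ ∈ K, T (κ • Q) = T Q) →
    ∀ (N : ℕ) (R₀ : GK F →* GL (Fin N) k), Galois (EigInd K g T 1 R₀) R₀ →
    ∀ M : Set ℕ, M.Infinite → ∀ (χ : ℕ → K →* kˣ) (R : ℕ → GK F →* GL (Fin N) k),
    (∀ m ∈ M, TwInd K g T m (χ m) (R m)) →
    ∃ X : K →* GL (Fin n) k, Galois (EigSub K T X) X ∧ (∀ σ : K, R₀ σ = 1 → X σ = 1) ∧
      LocalInd K g T M χ R X

/-- **Separation of twisted products and of automorphic inductions by characters of finite order.** -/
theorem result : SeparationOfProducts ∧ SeparationOfInductions := by
  refine ⟨?_, ?_⟩
  · intro F _ _ k _ _ _ _ _ _ ι _ n T hT N R₀ hR₀ M hM χ R hR
    exact separation hT hR₀ hM hR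
  · intro F _ _ k _ _ _ _ _ _ K _ hKo ι _ g hg n T hT hTK N R₀ hR₀ M hM χ R hR
    exact separation_ind hKo hg hT hTK hR₀ hM hR

end Pool.Agent.Results.MP_ef641d_nt.TwistedProducts
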