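import Pool.Agent.Run7.h427.PL.Main

/-!
# Galois representations attached to an automorphic representation: descent from two arbitrary
# extension fields

Let `F` be a number field and let `T v` be monic polynomials of degree `n` over a field `k` (an
algebraic closure of `ℚ_ℓ`, or any Hausdorff topological field of characteristic zero), for example the
Hecke polynomials of an algebraic automorphic representation `π` of `GL_n` over `F`.  Open subgroups
`H` of the absolute Galois group of `F` are the absolute Galois groups of the finite extensions of
`F`; for a prime of the extension field of degree one over the prime `v` of `F` a Frobenius element is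
a Frobenius element at `v` which is in `H`.  So `Attached T H ρ` says that `ρ` is a continuous
semisimple representation of the absolute Galois group of the extension field which corresponds to the
base change of `π` at almost all primes of degree one (the other primes are of density zero; nothing
is assumed there, and it is not assumed that the base change is automorphic).

1. **Two fields are sufficient.**  Let `ρ₁`, `ρ₂` be attached to `T` over the finite extensions `F₁`,
`F₂`, and let `L ⊇ F₁` be a finite Galois extension of `F`, linearly disjoint from `F₂` over `F`, such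
that `ρ₁` is stable over `L`: it has no new endomorphisms over the finite extensions of `L`.  Then
there is a unique representation of the absolute Galois group of `F` attached to `T` over `F₁` and
`F₂`, and its restrictions are `ρ₁` and `ρ₂`.
2. Such fields `L` exist for all `ρ₁`; if `k` has an ultrametric norm and residue characteristic `ℓ` it
is sufficient that the image of the absolute Galois group of `L` is conjugate to a group of matrices
congruent to `1` in the sense that the entries of the difference have norm at most `r`, where `r < 1`
and `r ^ (ℓ - 1) < |ℓ|` (for example the splitting field of `ρ₁` modulo `ℓ`, if `ℓ > 2` and this field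
is Galois over `F`).
3. **General families.**  If there are attached representations over the fields of a family such
that every finite extension of `F` is linearly disjoint from one of them, then there is an attached
representation over `F`, which is unique and extends all of them.
4. If a representation of `F` extends `ρ` over the extension field of `H` then it is unramified and
has the right characteristic polynomial of Frobenius at each prime `v` at which this is the case for
`ρ` and one place of degree one and unramified over `v`.

The extension fields are arbitrary: not Galois, not solvable, of any degree.  (For families of solvable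
Galois extensions of bounded height, with Galois invariant representations, part 3 is the patching
lemma of Blasius–Rogawski, Harris–Taylor and Sorensen.)
-/

set_option autoImplicit false

namespace Pool.Agent.Results.MP_ef641d_nt.TwoFields

open Run7.h427.DS Run7.h427.PL Pool.Agent.W401.Cheb NumberField IsDedekindDomain Polynomial

/-- (1) two fields -/
def TwoFieldsDescent : Prop :=
  ∀ (F : Type) [Field F] [NumberField F] (k : Type) [Field k] [CharZero k] [TopologicalSpace k]
    [IsTopologicalRing k] [T2Space k] (n : ℕ) (T : HeightOneSpectrum (𝓞 F) → k[X])
    (H₁ H₂ N : Subgroup (GK F)), N.Normal → IsOpen (N : Set (GK F)) → H₂ ⊔ N = ⊤ →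
    ∀ (ρ₁ : H₁ →* GL (Fin n) k) (ρ₂ : H₂ →* GL (Fin n) k),
      Attached T H₁ ρ₁ → Attached T H₂ ρ₂ → Stable H₁ ρ₁ N →
      ∃ R : GK F →* GL (Fin n) k, IsRep R ∧ Extends H₁ ρ₁ R ∧ Extends H₂ ρ₂ R ∧
        OnlyOne T (fun i : Bool => cond i H₁ H₂) R

/-- (2a) stable normal subgroups exist -/
def StableExist : Prop :=
  ∀ (F : Type) [Field F] [NumberField F] (k : Type) [Field k] (n : ℕ) (H : Subgroup (GK F)),
    IsOpen (H : Set (GK F)) → ∀ ρ : H →* GL (Fin n) k,
      ∃ N : Subgroup (GK F), N.Normal ∧ IsOpen (N : Set (GK F)) ∧ Stable H ρ N

/-- (2b) explicit stable subgroups in the `ℓ`-adic case -/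
def StableExplicit : Prop :=
  ∀ (F : Type) [Field F] [NumberField F] (k : Type) [NormedField k] [IsUltrametricDist k] (n : ℕ)
    (H N : Subgroup (GK F)) (ρ : H →* GL (Fin n) k) (ℓ : ℕ) (r : ℝ) (P : GL (Fin n) k),
    N ≤ H → ℓ.Prime → ‖((ℓ : ℕ) : k)‖ < 1 → r < 1 → r ^ (ℓ - 1) < ‖((ℓ : ℕ) : k)‖ →
    (∀ x : H, (x : GK F) ∈ N → Near r (P * ρ x * P⁻¹)) → Stable H ρ N

/-- (3) general families -/
def GeneralFamilies : Prop :=
  ∀ (F : Type) [Field F] [NumberField F] (k : Type) [Field k] [CharZero k] [TopologicalSpace k]
    [IsTopologicalRing k] [T2Space k] (n : ℕ) (T : HeightOneSpectrum (𝓞 F) → k[X])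
    (ι : Type) [Nonempty ι] (H : ι → Subgroup (GK F)), General H →
    ∀ ρ : ∀ i, H i →* GL (Fin n) k, (∀ i, Attached T (H i) (ρ i)) →
      ∃ R : GK F →* GL (Fin n) k, IsRep R ∧ (∀ i, Extends (H i) (ρ i) R) ∧ OnlyOne T H R

/-- (4) the local behaviour of an extension -/
def LocalBehaviour : Prop :=
  ∀ (F : Type) [Field F] [NumberField F] (k : Type) [Field k] (n : ℕ) (H : Subgroup (GK F))
    (ρ : H →* GL (Fin n) k) (R : GK F →* GL (Fin n) k), Extends H ρ R →
    ∀ (v : HeightOneSpectrum (𝓞 F)) (Q : Ideal (𝓞 (AlgebraicClosure F))), Q.IsMaximal →
      Q.comap (algebraMap (𝓞 F) (𝓞 (AlgebraicClosure F))) = v.asIdeal → ∀ P : k[X],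
      GoodAt v Q H ρ P → Unr v R P

/-- **Descent of attached Galois representations from two fields and from general families.** -/
theorem result : TwoFieldsDescent ∧ StableExist ∧ StableExplicit ∧ GeneralFamilies ∧
    LocalBehaviour := by
  refine ⟨?_, ?_, ?_, ?_, ?_⟩
  · intro F _ _ k _ _ _ _ _ n T H₁ H₂ N hNn hN htop ρ₁ ρ₂ h₁ h₂ hst
    exact two_fields hN htop h₁ h₂ hst
  · intro F _ _ k _ n H hH ρ
    exact exists_stable H hH ρ
  · intro F _ _ k _ _ n H N ρ ℓ r P hNH hℓ hℓ1 hr1 hrℓ h
    exact stable_of_close H ρ N hNH hℓ hℓ1 hr1 hrℓ P h
  · intro F _ _ k _ _ _ _ _ n T ι _ H hgen ρ h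
    exact general_family hgen h
  · intro F _ _ k _ n H ρ R h v Q hQ hQv P hg
    exact h.local v Q hQv hg.1 P hg.2

end Pool.Agent.Results.MP_ef641d_nt.TwoFields
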